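import Pool.Agent.H555R4.DY.Stmts

/-! Project H555-LW, task DY-Meas (backup): law of the first digits. -/

set_option autoImplicit false

open Finset Filter Topology

namespace Pool.Agent.H825R3.DY.Meas

open Pool.Agent.H555R4.DY

theorem num_succ (ε : ℕ → Bool) (p : ℕ) :
    num ε (p + 1) = num ε p + if ε p then 2 ^ p else 0 := by
  simp [num, Finset.sum_range_succ]

theorem num_lt (ε : ℕ → Bool) (p : ℕ) : num ε p < 2 ^ p := by
  induction p with
  | zero => simp [num]
  | succ p ih =>
    rw [num_succ, pow_succ]
    split_ifs <;> omega

theorem num_testBit (ε : ℕ → Bool) (p i : ℕ) (hi : i < p) : (num ε p).testBit i = ε i := by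
  induction p with
  | zero => omega
  | succ p ih =>
    rw [num_succ]
    rcases Nat.lt_succ_iff_lt_or_eq.1 hi with h | h
    · cases hε : ε p with
      | false => simpa using ih h
      | true =>
        simp only [if_true]
        rw [add_comm, Nat.testBit_two_pow_add_gt h]
        exact ih h
    · subst h
      have h1 : (num ε i).testBit i = false := Nat.testBit_lt_two_pow (num_lt ε i)
      cases hε : ε i with
      | false => simpa using h1
      | true =>
        simp only [if_true]
        rw [add_comm, Nat.testBit_two_pow_add_eq, h1]
        rfl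

theorem taskMeas : TaskMeas := by
  intro p n
  have hsub : {ε : ℕ → Bool | num ε p = n} ⊆
      Set.pi (↑(Finset.range p)) (fun i => {n.testBit i}) := by
    intro ε hε i hi
    have hi' : i < p := by simpa using hi
    have h1 : num ε p = n := hε
    rw [Set.mem_singleton_iff, ← h1, num_testBit ε p i hi']
  refine (MeasureTheory.measure_mono hsub).trans ?_
  unfold coin
  rw [MeasureTheory.Measure.infinitePi_pi _ (fun i _ => MeasurableSet.singleton _)]
  have h2 : ∀ b : Bool, (PMF.uniformOfFintype Bool).toMeasure {b} = ENNReal.ofReal (1 / 2) := by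
    intro b
    rw [PMF.toMeasure_apply_singleton _ _ (MeasurableSet.singleton b), PMF.uniformOfFintype_apply]
    rw [Fintype.card_bool, ENNReal.ofReal_div_of_pos (by norm_num)]
    simp
  simp only [h2, Finset.prod_const, Finset.card_range]
  rw [← ENNReal.ofReal_pow (by norm_num)]
  apply ENNReal.ofReal_le_ofReal
  rw [div_pow, one_pow]

end Pool.Agent.H825R3.DY.Meas
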